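import Mathlib
import Pool.Agent.K1H22.SR.Stm2

/-! Piece PRODZ of part 2 of project SR (MP_60edde_al): the closed paths with trivial label have
semilinear weights over `K × ℤ` if they do over `K` -/

set_option autoImplicit false

namespace Pool.Agent.K1H72.SR2

open Pool.Agent.K1H22.SR2

open Classical in
/-- move the coordinate in `ℤ` from the label to the weight -/
noncomputable def mv {T K M : Type} (E : Finset (T × (K × Multiplicative ℤ) × M × T)) :
    Finset (T × K × (M × ℤ) × T) :=
  E.image (fun x => (x.1, x.2.1.1, (x.2.2.1, Multiplicative.toAdd x.2.1.2), x.2.2.2))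

theorem mem_mv {T K M : Type} {E : Finset (T × (K × Multiplicative ℤ) × M × T)} {p q : T} {g : K}
    {v : M} {z : ℤ} : (p, g, (v, z), q) ∈ mv E ↔ (p, (g, Multiplicative.ofAdd z), v, q) ∈ E := by
  classical
  unfold mv
  rw [Finset.mem_image]
  constructor
  · rintro ⟨⟨a, ⟨b, c⟩, d, e⟩, hx, h⟩
    simp only [Prod.mk.injEq] at h
    obtain ⟨rfl, rfl, ⟨rfl, rfl⟩, rfl⟩ := h
    exact hx
  · intro h
    exact ⟨_, h, rfl⟩

theorem fwd {T K M : Type} [Group K] [AddCommMonoid M]
    {E : Finset (T × (K × Multiplicative ℤ) × M × T)} {p q : T} {g : K × Multiplicative ℤ} {v : M}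
    (h : GW E p q g v) : GW (mv E) p q g.1 (v, Multiplicative.toAdd g.2) := by
  induction h with
  | nil => exact GW.nil
  | @cons p p' q g h v w hE _ ih =>
    have h1 : (p, g.1, (v, Multiplicative.toAdd g.2), p') ∈ mv E := mem_mv.2 hE
    exact GW.cons h1 ih

theorem bwd {T K M : Type} [Group K] [AddCommMonoid M]
    {E : Finset (T × (K × Multiplicative ℤ) × M × T)} {p q : T} {g : K} {v : M × ℤ}
    (h : GW (mv E) p q g v) : GW E p q (g, Multiplicative.ofAdd v.2) v.1 := by
  induction h with
  | nil => exact GW.nil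
  | @cons p p' q g h v w hE _ ih =>
    have h1 : (p, (g, Multiplicative.ofAdd v.2), v.1, p') ∈ E := mem_mv.1 hE
    exact GW.cons h1 ih

theorem t_PRODZ : Pool.Agent.K1H22.SR2.S_PRODZ := by
  intro K _ hK M T _ _ _ E p q
  have h := (hK (M × ℤ) T (mv E) p q).preimage (AddMonoidHom.inl M ℤ)
  have he : {v : M | GW E p q 1 v} = (AddMonoidHom.inl M ℤ) ⁻¹' {v : M × ℤ | GW (mv E) p q 1 v} := by
    ext v
    constructor
    · intro hv
      exact fwd hv
    · intro hv
      exact bwd hv
  rw [he]
  exact h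

end Pool.Agent.K1H72.SR2
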